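import Pool.Agent.R443.SKval

/-!
# `2`-adic valuation of `S_{4,2^s}(n)`

`Pool.Agent.R443.SK.S k m n` is the coefficient of `x^n` in
`(1-x)^(-m) ∏_{0 ≤ i ≤ n} (1 - x^(k^i))^(-m(k-1))` (the factors with `i > n` have no
influence on this coefficient).
-/

set_option autoImplicit false

namespace Pool.Agent.Results.MP_c5dce0_nt.ValuationFormula

open Pool.Agent.R443.SK

/-- For all `s ≥ 2` and `n ≥ 1`, the number `S_{4,2^s}(n)` is nonzero and its `2`-adic valuation
is `s + 1 + (ν₂(2n) mod 2)`. -/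
theorem result (s n : ℕ) (hs : 2 ≤ s) (hn : 1 ≤ n) :
    S 4 (2 ^ s) n ≠ 0 ∧
      padicValInt 2 (S 4 (2 ^ s) n) = s + 1 + padicValNat 2 (2 * n) % 2 := by
  haveI : Fact (Nat.Prime 2) := ⟨Nat.prime_two⟩
  have h := main_val (p := 2) (a := 2) (m := 2 ^ s) (n := n) (by norm_num)
    (by positivity) (by omega) (Or.inr ⟨rfl, pow_dvd_pow 2 hs⟩)
  have h1 : padicValNat 2 (2 ^ s) = s := padicValNat.prime_pow s
  have h2 : padicValNat 2 (2 * n) = 1 + padicValNat 2 n := by
    rw [padicValNat.mul (by norm_num) (by omega), padicValNat.self (by norm_num)]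
  have h4 : (2 : ℕ) ^ 2 = 4 := by norm_num
  rw [h4, h1] at h
  rw [h2]
  have h5 : padicValInt 2 (S 4 (2 ^ s) n) = s + 1 + (1 + padicValNat 2 n) % 2 := by omega
  refine ⟨?_, h5⟩
  intro h0
  rw [h0] at h5
  simp only [padicValInt.zero] at h5
  omega

end Pool.Agent.Results.MP_c5dce0_nt.ValuationFormula
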